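import Pool.Agent.helper69.SN.SpecA

/-! Row sn:aTRU (project sn, MP_d2d7b9): truncation. -/

open scoped Pointwise ContDiff
open MeasureTheory Set Filter Topology Matrix

namespace Pool.Agent.helper79.SN

open Pool.Agent.helper83.SC Pool.Agent.helper69.SN

/-- Spectral decomposition of a positive semidefinite real matrix. -/
lemma spec {m : ℕ} {N : Mat m} (hN : N.PosSemidef) :
    ∃ (U : Mat m) (d : Fin m → ℝ), U.transpose * U = 1 ∧ U * U.transpose = 1 ∧ (∀ i, 0 ≤ d i) ∧
      N = U * Matrix.diagonal d * U.transpose := by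
  have hH := hN.isHermitian
  refine ⟨(hH.eigenvectorUnitary : Mat m), hH.eigenvalues, ?_, ?_, hN.eigenvalues_nonneg, ?_⟩
  · have := Unitary.coe_star_mul_self hH.eigenvectorUnitary
    rwa [star_eq_conjTranspose, conjTranspose_eq_transpose_of_trivial] at this
  · have := (Unitary.mem_iff.mp hH.eigenvectorUnitary.2).2
    rwa [star_eq_conjTranspose, conjTranspose_eq_transpose_of_trivial] at this
  · conv_lhs => rw [hH.spectral_theorem, Unitary.conjStarAlgAut_apply]
    rw [star_eq_conjTranspose, conjTranspose_eq_transpose_of_trivial]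
    rfl

/-- Functional calculus. -/
def fc {m : ℕ} (U : Mat m) (f : Fin m → ℝ) : Mat m := U * Matrix.diagonal f * U.transpose

lemma fc_mul {m : ℕ} {U : Mat m} (hU : U.transpose * U = 1) (f g : Fin m → ℝ) :
    fc U f * fc U g = fc U (fun i => f i * g i) := by
  unfold fc
  calc U * Matrix.diagonal f * U.transpose * (U * Matrix.diagonal g * U.transpose)
      = U * Matrix.diagonal f * (U.transpose * U) * Matrix.diagonal g * U.transpose := by
        simp only [Matrix.mul_assoc]
    _ = U * (Matrix.diagonal f * Matrix.diagonal g) * U.transpose := by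
        rw [hU, Matrix.mul_one]; simp only [Matrix.mul_assoc]
    _ = _ := by rw [Matrix.diagonal_mul_diagonal]

lemma fc_add {m : ℕ} (U : Mat m) (f g : Fin m → ℝ) :
    fc U f + fc U g = fc U (fun i => f i + g i) := by
  unfold fc
  rw [← Matrix.diagonal_add, Matrix.mul_add, Matrix.add_mul]

lemma fc_smul {m : ℕ} (U : Mat m) (c : ℝ) (f : Fin m → ℝ) :
    c • fc U f = fc U (fun i => c * f i) := by
  unfold fc
  have : Matrix.diagonal (fun i => c * f i) = c • Matrix.diagonal f := by
    rw [← Matrix.diagonal_smul]; rfl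
  rw [this, Matrix.mul_smul, Matrix.smul_mul]

lemma fc_one {m : ℕ} {U : Mat m} (hU : U * U.transpose = 1) :
    fc U (fun _ => 1) = 1 := by
  unfold fc
  have : Matrix.diagonal (fun _ : Fin m => (1 : ℝ)) = 1 := Matrix.diagonal_one
  rw [this, Matrix.mul_one, hU]

lemma fc_psd {m : ℕ} (U : Mat m) (f : Fin m → ℝ) (hf : ∀ i, 0 ≤ f i) :
    (fc U f).PosSemidef := by
  unfold fc
  have h := (Matrix.PosSemidef.diagonal (n := Fin m) (R := ℝ) (d := f) hf).mul_mul_conjTranspose_same U
  rwa [conjTranspose_eq_transpose_of_trivial] at h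

lemma fc_transpose {m : ℕ} (U : Mat m) (f : Fin m → ℝ) : (fc U f).transpose = fc U f := by
  unfold fc
  rw [Matrix.transpose_mul, Matrix.transpose_mul, Matrix.transpose_transpose,
    Matrix.diagonal_transpose, Matrix.mul_assoc]

/-- `X P X` is positive semidefinite for symmetric `X`. -/
lemma psd_conj {m : ℕ} {P : Mat m} (hP : P.PosSemidef) {X : Mat m} (hX : X.transpose = X) :
    (X * P * X).PosSemidef := by
  have h := hP.mul_mul_conjTranspose_same X
  rwa [conjTranspose_eq_transpose_of_trivial, hX] at h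

theorem aTRU (hCLO : aCLO_stmt) (hCNG : aCNG_stmt) (hPER : aPER_stmt) : aTRU_stmt := by
  intro m n b δ hb hδ
  obtain ⟨η, hη, H⟩ := hPER (m := m) (n := n) b δ hb hδ
  -- parameters
  set t : ℝ := η / (b + 1) with ht
  have hb1 : 0 < b + 1 := by linarith
  have ht0 : 0 < t := div_pos hη hb1
  have htb : t * b ≤ η := by
    rw [ht, div_mul_eq_mul_div, div_le_iff₀ hb1]
    nlinarith
  set C : ℝ := (1 + t⁻¹) * b with hC
  have hti : 0 < t⁻¹ := inv_pos.mpr ht0
  have hC0 : 0 ≤ C := mul_nonneg (by linarith) hb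
  refine ⟨η / (C + 1), div_pos hη (by linarith), ?_⟩
  intro ε hε hε0 B N hB hBb hN hM
  have hCε : C * ε ≤ η := by
    have h1 : C * ε ≤ C * (η / (C + 1)) := mul_le_mul_of_nonneg_left hε0 hC0
    have h2 : C * (η / (C + 1)) ≤ η := by
      rw [mul_div_assoc', div_le_iff₀ (by linarith)]
      nlinarith
    linarith
  have hCε' : t⁻¹ * b * ε ≤ η := by
    have : t⁻¹ * b * ε ≤ C * ε := by
      apply mul_le_mul_of_nonneg_right _ hε.le
      rw [hC]; nlinarith
    linarith
  obtain ⟨U, d, hU1, hU2, hd, hNU⟩ := spec hN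
  -- scalar functions
  set s : Fin m → ℝ := fun i => (Real.sqrt (1 + ε * d i))⁻¹ with hs
  have hq : ∀ i, 1 ≤ 1 + ε * d i := fun i => by
    have := mul_nonneg hε.le (hd i); linarith
  have hq0 : ∀ i, 0 < 1 + ε * d i := fun i => lt_of_lt_of_le one_pos (hq i)
  have hsq : ∀ i, s i * s i = (1 + ε * d i)⁻¹ := fun i => by
    simp only [hs]
    rw [← mul_inv, Real.mul_self_sqrt (hq0 i).le]
  have hs0 : ∀ i, 0 < s i := fun i => inv_pos.mpr (Real.sqrt_pos.mpr (hq0 i))
  have hs1 : ∀ i, s i ≤ 1 := fun i => by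
    simp only [hs]
    apply inv_le_one_of_one_le₀
    rw [show (1 : ℝ) = Real.sqrt 1 by simp]
    apply Real.sqrt_le_sqrt
    simpa using hq i
  set g : Mat m := fc U s with hg
  set N' : Mat m := N * (1 + ε • N)⁻¹ with hN'
  have hNf : N = fc U d := hNU
  have hinv : (1 + ε • N)⁻¹ = fc U (fun i => (1 + ε * d i)⁻¹) := by
    apply Matrix.inv_eq_right_inv
    rw [hNf, fc_smul, ← fc_one hU2, fc_add, fc_mul hU1]
    congr 1
    funext i
    exact mul_inv_cancel₀ (hq0 i).ne'
  have hN'f : N' = fc U (fun i => d i * (1 + ε * d i)⁻¹) := by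
    rw [hN', hinv]
    conv_lhs => rw [hNf]
    rw [fc_mul hU1]
  have hgNg : g * N * g.transpose = N' := by
    rw [hg, fc_transpose, hN'f]
    conv_lhs => rw [hNf]
    rw [fc_mul hU1, fc_mul hU1]
    congr 1
    funext i
    rw [← hsq i]; ring
  have hgT : g.transpose = g := fc_transpose U s
  have hN'psd : N'.PosSemidef := by
    rw [hN'f]
    exact fc_psd U _ (fun i => mul_nonneg (hd i) (inv_nonneg.mpr (hq0 i).le))
  set K : Mat m := fc U (fun i => 1 - s i) with hK
  have hKT : K.transpose = K := fc_transpose U _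
  have hgK : g = 1 - K := by
    rw [eq_sub_iff_add_eq, hg, hK, fc_add, ← fc_one hU2]
    congr 1
    funext i; ring
  -- `ε N' - K²` is positive semidefinite
  have hKK : (ε • N' - K * K).PosSemidef := by
    have : ε • N' - K * K = fc U (fun i => 2 * (s i * (1 - s i))) := by
      rw [sub_eq_iff_eq_add, hN'f, hK, fc_mul hU1, fc_add, fc_smul]
      congr 1
      funext i
      have h1 := hsq i
      have h2 : (1 + ε * d i) * (1 + ε * d i)⁻¹ = 1 := mul_inv_cancel₀ (hq0 i).ne'
      have h3 : ε * (d i * (1 + ε * d i)⁻¹) = 1 - (1 + ε * d i)⁻¹ := by linear_combination h2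
      rw [h3, ← h1]; ring
    rw [this]
    exact fc_psd U _ (fun i => mul_nonneg (by norm_num)
      (mul_nonneg (hs0 i).le (by linarith [hs1 i])))
  have hgg : (1 - g * g).PosSemidef := by
    have : 1 - g * g = fc U (fun i => 1 - s i * s i) := by
      rw [sub_eq_iff_eq_add, hg, fc_mul hU1, fc_add, ← fc_one hU2]
      congr 1
      funext i; ring
    rw [this]
    exact fc_psd U _ (fun i => by
      have := mul_le_one₀ (hs1 i) (hs0 i).le (hs1 i); linarith)
  have hgdet : g.det ≠ 0 := by
    have h1 : g * fc U (fun i => (s i)⁻¹) = 1 := by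
      rw [hg, fc_mul hU1, ← fc_one hU2]
      congr 1
      funext i; exact mul_inv_cancel₀ (hs0 i).ne'
    intro h0
    have h2 := congrArg Matrix.det h1
    rw [Matrix.det_mul, h0, zero_mul, Matrix.det_one] at h2
    exact zero_ne_one h2
  -- the new family
  set B' : Fin n → Mat m := fun i => g * B i * g.transpose with hB'
  have hB'psd : Psd B' := fun i => by
    simp only [hB']
    have h := (hB i).mul_mul_conjTranspose_same g
    rwa [conjTranspose_eq_transpose_of_trivial] at h
  have hB'b : Le B' b := fun i => by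
    have e : b • (1 : Mat m) - B' i = b • (1 - g * g) + g * (b • (1 : Mat m) - B i) * g := by
      simp only [hB', hgT]
      rw [Matrix.mul_sub, Matrix.sub_mul, Matrix.mul_smul, Matrix.smul_mul, Matrix.mul_one, smul_sub]
      abel
    rw [e]
    exact (hgg.smul hb).add (psd_conj (hBb i) hgT)
  have hcov := hCNG B hB g _ hgdet hM
  have e1 : g * (N - ∑ i, B i) * g.transpose = N' - ∑ i, B' i := by
    rw [Matrix.mul_sub, Matrix.sub_mul, hgNg, Matrix.mul_sum, Matrix.sum_mul]
  rw [e1] at hcov
  have hcov' : N' - ∑ i, B' i + η • (1 : Mat m) ∈ GG B' :=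
    (hCLO B' hB'psd).2.1 _ _ hcov (Matrix.PosSemidef.one.smul hη.le)
  refine H B' B N' hB'psd hB hB'b hBb hN'psd ?_ ?_ hcov'
  · -- `η (1 + N') - (g B g - B)`
    intro i
    have hBi := hB i
    have hx : ((t • (1 : Mat m) + K) * B i * (t • (1 : Mat m) + K)).PosSemidef :=
      psd_conj hBi (by rw [Matrix.transpose_add, hKT, Matrix.transpose_smul, Matrix.transpose_one])
    have hy : (K * (b • (1 : Mat m) - B i) * K).PosSemidef := psd_conj (hBb i) hKT
    have e : η • (1 + N') - (B' i - B i) =
        t⁻¹ • ((t • (1 : Mat m) + K) * B i * (t • (1 : Mat m) + K))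
        + t • (b • (1 : Mat m) - B i) + (1 + t⁻¹) • (K * (b • (1 : Mat m) - B i) * K)
        + C • (ε • N' - K * K) + (η - t * b) • (1 : Mat m) + (η - C * ε) • N' := by
      have htt : t⁻¹ * t = 1 := inv_mul_cancel₀ ht0.ne'
      simp only [hB', hgT, hC]
      rw [hgK]
      simp only [Matrix.mul_add, Matrix.add_mul, Matrix.mul_sub, Matrix.sub_mul, Matrix.mul_smul,
        Matrix.smul_mul, Matrix.one_mul, Matrix.mul_one, smul_add, smul_sub, add_smul, sub_smul,
        smul_smul, one_smul]
      ext a c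
      simp only [Matrix.add_apply, Matrix.sub_apply, Matrix.smul_apply, smul_eq_mul]
      have h1 : t⁻¹ * (t * t) = t := by rw [← mul_assoc, htt, one_mul]
      rw [h1, htt]
      ring
    rw [e]
    have hCpos : 0 ≤ C := hC0
    exact (((((hx.smul hti.le).add ((hBb i).smul ht0.le)).add (hy.smul (by linarith))).add
      (hKK.smul hCpos)).add (Matrix.PosSemidef.one.smul (by linarith))).add
      (hN'psd.smul (by linarith))
  · -- `η (1 + N') - (B - g B g)`
    intro i
    have hBi := hB i
    have hx : ((t • (1 : Mat m) - K) * B i * (t • (1 : Mat m) - K)).PosSemidef :=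
      psd_conj hBi (by rw [Matrix.transpose_sub, hKT, Matrix.transpose_smul, Matrix.transpose_one])
    have hy : (K * (b • (1 : Mat m) - B i) * K).PosSemidef := psd_conj (hBb i) hKT
    have hz : (K * B i * K).PosSemidef := psd_conj hBi hKT
    have e : η • (1 + N') - (B i - B' i) =
        t⁻¹ • ((t • (1 : Mat m) - K) * B i * (t • (1 : Mat m) - K)) + K * B i * K
        + t • (b • (1 : Mat m) - B i) + t⁻¹ • (K * (b • (1 : Mat m) - B i) * K)
        + (t⁻¹ * b) • (ε • N' - K * K) + (η - t * b) • (1 : Mat m)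
        + (η - t⁻¹ * b * ε) • N' := by
      have htt : t⁻¹ * t = 1 := inv_mul_cancel₀ ht0.ne'
      simp only [hB', hgT]
      rw [hgK]
      simp only [Matrix.mul_add, Matrix.add_mul, Matrix.mul_sub, Matrix.sub_mul, Matrix.mul_smul,
        Matrix.smul_mul, Matrix.one_mul, Matrix.mul_one, smul_add, smul_sub, add_smul, sub_smul,
        smul_smul, one_smul]
      ext a c
      simp only [Matrix.add_apply, Matrix.sub_apply, Matrix.smul_apply, smul_eq_mul]
      have h1 : t⁻¹ * (t * t) = t := by rw [← mul_assoc, htt, one_mul]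
      rw [h1, htt]
      ring
    rw [e]
    exact ((((((hx.smul hti.le).add hz).add ((hBb i).smul ht0.le)).add (hy.smul hti.le)).add
      (hKK.smul (mul_nonneg hti.le hb))).add (Matrix.PosSemidef.one.smul (by linarith))).add
      (hN'psd.smul (by linarith))

end Pool.Agent.helper79.SN
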