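import Pool.Agent.helper28.SN.SpecC

set_option autoImplicit false

open scoped Pointwise ContDiff
open MeasureTheory Set Filter Topology Pool.Agent.helper83.SC Pool.Agent.helper69.SN

namespace Pool.Agent.helper28.SN

theorem cIBP : cIBP_stmt := by
  intro m i f g hf hg hfc
  have hpf : Continuous (fun x => pd i f x) :=
    ((hf.fderiv_right (m := ∞) (by simp)).clm_apply contDiff_const).continuous
  have hpg : Continuous (fun x => pd i g x) :=
    ((hg.fderiv_right (m := ∞) (by simp)).clm_apply contDiff_const).continuous
  have hcf : HasCompactSupport (fun x => pd i f x) := hfc.fderiv_apply (𝕜 := ℝ) (v := e i)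
  have h1 : Integrable (fun x => pd i f x * g x) :=
    (hpf.mul hg.continuous).integrable_of_hasCompactSupport hcf.mul_right
  have h2 : Integrable (fun x => f x * pd i g x) :=
    (hf.continuous.mul hpg).integrable_of_hasCompactSupport hfc.mul_right
  have h3 : Integrable (fun x => f x * g x) :=
    (hf.continuous.mul hg.continuous).integrable_of_hasCompactSupport hfc.mul_right
  have key := integral_mul_fderiv_eq_neg_fderiv_mul_of_integrable (μ := volume) (f := f) (g := g)
    (v := e i) h1 h2 h3 (fun x _ => hf.differentiable (by simp) x)
    (fun x _ => hg.differentiable (by simp) x)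
  have key' : ∫ x, f x * pd i g x = -∫ x, pd i f x * g x := key
  linarith

end Pool.Agent.helper28.SN
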