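import Pool.Agent.helper28.SN.SpecC

set_option autoImplicit false

open scoped Pointwise ContDiff
open MeasureTheory Set Filter Topology Pool.Agent.helper83.SC Pool.Agent.helper69.SN

namespace Pool.Agent.helper28.SN

lemma cVAN_cont (hCH : continuous_hess_stmt) {m : ℕ} {f : Fin m → E m → ℝ}
    (hf : ∀ j, ContDiff ℝ ∞ (f j)) : Continuous fun x => mD (fun j => hess (f j) x) := by
  unfold mD
  refine continuous_const.mul (continuous_finset_sum _ fun σ _ => Continuous.matrix_det ?_)
  refine continuous_matrix fun i j => ?_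
  exact (hCH (hf (σ i))).matrix_elem i j

theorem cVAN (hVB : cVB_stmt) (hTest : exists_test_stmt) (hNN : mD_nonneg_stmt)
    (hPSD : hess_psd_stmt) (hBS : B_smooth_stmt) (hTB : tendsto_B_stmt)
    (hCH : continuous_hess_stmt) : cVAN_stmt := by
  intro m D F G T R hF hG hlim hfin hT
  have hR : 0 < |R| + 1 := by positivity
  obtain ⟨φ, hφ, hφ1, hφone, hφs⟩ := hTest (m := m) (r₁ := |R| + 1) (r₂ := |R| + 2) hR (by linarith)
  have hB0 : Tendsto (fun l => B φ (G l)) atTop (𝓝 0) := by
    have h := hTB hφ hF (fun l j => (hG l j).2) hlim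
    rwa [hVB D F T φ hφ hF hfin hT] at h
  have hnn : ∀ l x, 0 ≤ mD (fun j => hess (G l j) x) := fun l x =>
    hNN fun j => hPSD (hG l j).1 (hG l j).2 x
  refine squeeze_zero (fun l => ?_) (fun l => ?_) hB0
  · exact integral_nonneg fun x => hnn l x
  · rw [hBS hφ (fun j => (hG l j).1) (fun j => (hG l j).2)]
    have e1 : ∫ x in Metric.closedBall (0 : E m) R, mD (fun j => hess (G l j) x) =
        ∫ x in Metric.closedBall (0 : E m) R, φ x * mD (fun j => hess (G l j) x) := by
      refine setIntegral_congr_fun Metric.isClosed_closedBall.measurableSet fun x hx => ?_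
      have hx' : ‖x‖ < |R| + 1 := by
        have := mem_closedBall_zero_iff.mp hx
        have h2 := le_abs_self R
        linarith
      simp only [hφone x hx', one_mul]
    rw [e1]
    refine setIntegral_le_integral ?_ (Eventually.of_forall fun x => mul_nonneg (hφ.2.2 x) (hnn l x))
    exact (hφ.1.continuous.mul (cVAN_cont hCH fun j => (hG l j).1)).integrable_of_hasCompactSupport
      hφ.2.1.mul_right

end Pool.Agent.helper28.SN
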