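import Pool.Agent.helper40.SN.SpecD

set_option autoImplicit false

open scoped Pointwise ContDiff
open MeasureTheory Set Filter Topology Pool.Agent.helper83.SC Pool.Agent.helper69.SN

namespace Pool.Agent.helper40.SN

theorem dBND : dBND_stmt := by
  intro m n S T D h hh R
  have hc : ∀ i, Continuous (h i) := fun i => by
    have h1 : ContinuousOn (h i) Set.univ := (hh i).continuousOn isOpen_univ
    rwa [← continuousOn_univ]
  have hK : IsCompact (Metric.closedBall (0 : E m) R) := isCompact_closedBall _ _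
  have hb : ∀ i, ∃ C, ∀ x ∈ Metric.closedBall (0 : E m) R, ‖h i x‖ ≤ C := fun i =>
    hK.exists_bound_of_continuousOn (hc i).continuousOn
  choose C hC using hb
  have hQc : Continuous (Qf D) := ((continuous_id.sub (pj D).continuous).norm).pow 2
  obtain ⟨CQ, hCQ⟩ := hK.exists_bound_of_continuousOn hQc.continuousOn
  have hMi : ∀ i, 0 ≤ |C i| + 1 := fun i => by positivity
  have hM : 0 ≤ ∑ i, (|C i| + 1) := Finset.sum_nonneg fun i _ => hMi i
  refine ⟨(∑ i, (|C i| + 1)) + |CQ| + 1, by have := abs_nonneg CQ; linarith, ?_⟩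
  intro a ha x hx
  have hxm : x ∈ Metric.closedBall (0 : E m) R := mem_closedBall_zero_iff.mpr hx
  have h1 : ∀ i, |a i x| ≤ |C i| + 1 := fun i => by
    have e1 : a i x = (a i x - h i x) + h i x := by ring
    have e2 := hC i x hxm
    rw [Real.norm_eq_abs] at e2
    calc |a i x| = |(a i x - h i x) + h i x| := by rw [← e1]
      _ ≤ |a i x - h i x| + |h i x| := abs_add_le _ _
      _ ≤ 1 + |C i| := add_le_add (ha.2 i x hx) (e2.trans (le_abs_self _))
      _ = |C i| + 1 := by ring
  have hsum : ∀ U : Finset (Fin n), |∑ j ∈ U, a j x| ≤ ∑ i, (|C i| + 1) := fun U =>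
    calc |∑ j ∈ U, a j x| ≤ ∑ j ∈ U, |a j x| := Finset.abs_sum_le_sum_abs _ _
      _ ≤ ∑ j ∈ U, (|C j| + 1) := Finset.sum_le_sum fun j _ => h1 j
      _ ≤ ∑ j, (|C j| + 1) :=
        Finset.sum_le_sum_of_subset_of_nonneg (Finset.subset_univ _) fun j _ _ => hMi j
  have hQ : |Qf D x| ≤ |CQ| := by
    have := hCQ x hxm
    rw [Real.norm_eq_abs] at this
    exact this.trans (le_abs_self _)
  have hCQ0 := abs_nonneg CQ
  refine ⟨fun i => ?_, ?_, ?_, ?_⟩
  · have h2 : |C i| + 1 ≤ ∑ j, (|C j| + 1) :=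
      Finset.single_le_sum (f := fun j => |C j| + 1) (fun j _ => hMi j) (Finset.mem_univ i)
    have h3 := h1 i
    linarith
  · have h2 : |Gf S T D a x| ≤ |Qf D x| + |∑ j ∈ S \ T, a j x| := abs_add_le _ _
    have h3 := hsum (S \ T)
    linarith
  · have h3 := hsum (S \ T)
    linarith
  · have h3 := hsum T
    linarith

end Pool.Agent.helper40.SN
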